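import Pool.Agent.Q83.Tree.Final

/-! Type II factorisations of Lebesgue measure: every spectrum of the first factor is complemented
to `ℤ` by a spectrum of the second factor. -/

set_option autoImplicit false

open MeasureTheory
open Pool.Agent.Q83.Tree

namespace Pool.Agent.Results.MP_47966f_an.Complement

/-- The measure `ν_{k+1}`: uniform on the points `j / (N 0 ⋯ N k)`, `0 ≤ j < N k`
(0-indexed sequence `N`). -/
noncomputable def factor (N : ℕ → ℕ) (k : ℕ) : Measure ℝ := unifPts (N k) (PP N (k + 1))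

/-- For every sequence `N ≥ 2`, if `μ = ν₁ ∗ ν₃ ∗ ⋯` and `ν = ν₂ ∗ ν₄ ∗ ⋯` (weak limits), then every
spectrum `Λ` of `μ` has a spectrum `Λ'` of `ν` with `Λ ⊕ Λ' = ℤ`. -/
theorem result (N : ℕ → ℕ) (hN : ∀ k, 2 ≤ N k) (μ ν : Measure ℝ)
    [IsProbabilityMeasure μ] [IsProbabilityMeasure ν]
    (hμ : IsInfConv (fun n => factor N (2 * n)) μ)
    (hν : IsInfConv (fun n => factor N (2 * n + 1)) ν)
    (Λ : Set ℝ) (hΛ : IsSpectrum μ Λ) :
    ∃ Λ' : Set ℝ, IsSpectrum ν Λ' ∧ DirectSumInt Λ Λ' :=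
  complement hN μ ν hμ hν Λ hΛ

end Pool.Agent.Results.MP_47966f_an.Complement
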